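import Pool.Agent.D0H73.OP.Stm

/-! Project OP (helper73), module BASE: stage 0. -/

set_option autoImplicit false

open Finset
open scoped BigOperators

namespace Pool.Agent.D0H19.OP

open Pool.Agent.V1192 Pool.Agent.V1192.GA
open Pool.Agent.V1192.UOD (V)
open Pool.Agent.D0H73.OP

theorem cis_norm (θ : ℝ) : ‖cis θ‖ = 1 := by
  unfold cis
  exact Complex.norm_exp_ofReal_mul_I θ

theorem cis_cont : Continuous cis := by
  unfold cis
  fun_prop

theorem cis_per (θ : ℝ) : cis (θ + 2 * Real.pi) = cis θ := by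
  unfold cis
  have : ((θ + 2 * Real.pi : ℝ) : ℂ) * Complex.I = θ * Complex.I + 2 * Real.pi * Complex.I := by
    push_cast
    ring
  rw [this, Complex.exp_periodic (θ * Complex.I)]

variable {p : ℕ} [Fact p.Prime] {N : ℕ → ℕ} {n : ℕ}

/-- the functional is continuous in a continuous family of disc variables -/
theorem cont_ap (x χ : H p N n → ℂ) (d : (i : Fin n) → V p (N i) → ℕ) (s : ℝ → Fin n → ℂ)
    (hs : ∀ i, Continuous fun θ => s θ i) : Continuous fun θ => ap x (Ph d χ (s θ)) := by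
  unfold ap Ph
  refine continuous_finset_sum _ fun g _ => ?_
  refine continuous_const.mul (continuous_const.mul ?_)
  exact continuous_finset_prod _ fun i _ => (hs i).pow _

/-- the functional is bounded by one -/
theorem ph_norm (d : (i : Fin n) → V p (N i) → ℕ) (χ : H p N n → ℂ) (hχ : ∀ g, ‖χ g‖ = 1) (s : Fin n → ℂ)
    (hs : ∀ i, ‖s i‖ ≤ 1) (g : H p N n) : ‖Ph d χ s g‖ ≤ 1 := by
  unfold Ph
  rw [norm_mul, hχ, one_mul, norm_prod]
  refine Finset.prod_le_one (fun i _ => norm_nonneg _) fun i _ => ?_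
  rw [norm_pow]
  exact pow_le_one₀ (norm_nonneg _) (hs i)

theorem sv_cont (k : ℕ) (z ζ : ℝ → ℂ) (hz : Continuous z) (hζ : Continuous ζ) (i : Fin n) :
    Continuous fun θ => sv k (z θ) (ζ θ) i := by
  unfold sv
  split_ifs
  · exact continuous_const
  · exact hz
  · exact hζ
  · exact continuous_const

theorem t_BASE : S_TOP → S_NUM → S_AAF → S_VAL → S_BASE := by
  rintro ⟨h1, -, -, h4⟩ hnum haaf hval p _ N l x y d m hN hdat hfac
  obtain ⟨n1, n2, n3, n4, n5, n6⟩ := hnum p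
  obtain ⟨a1, a2, a3, a4⟩ := haaf p N (l + 2) hN
  have hchr : IsChr (n := l + 2) (N := N) (p := p) 0 (fun _ => (1 : ℂ)) :=
    ⟨fun g h => by simp, fun g => by simp, fun g _ => rfl⟩
  refine ⟨fun _ => 1, hchr, ⟨0, ?_, ?_⟩, ?_⟩
  · unfold tt
    simp
  · rw [abs_zero]
    have := (n1 0).1
    positivity
  have hhalf : ∀ θ : ℝ, ‖cis θ / 2‖ = 1 / 2 := fun θ => by
    rw [norm_div, cis_norm]
    simp
  refine h1 (fun θ => cis θ / 2) _ (cis_cont.div_const 2) ?_ ?_ ?_ ?_ h4
  · exact cont_ap x _ d _ (fun i => sv_cont 0 _ _ (cis_cont.div_const 2) continuous_const i)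
  · intro θ
    simp only [cis_per]
  · intro θ
    simp only [cis_per]
  intro θ
  rw [hhalf]
  obtain ⟨s, hs⟩ : ∃ s : Fin (l + 2) → ℂ, s = sv 0 (cis θ / 2) 0 := ⟨_, rfl⟩
  have hs0 : ∀ i : Fin (l + 2), s i = if (i : ℕ) = 0 then cis θ / 2 else 0 := by
    intro i
    rw [hs]
    unfold sv
    simp
  have hsle : ∀ i : Fin (l + 2), ‖s i‖ ≤ 1 / 2 := by
    intro i
    rw [hs0]
    split_ifs
    · rw [hhalf]
    · simp
  have hv := (hval p N (l + 2) d m (fun i => tau p i) 0 (fun _ => 1) s hN hdat.pkg hchr (fun i hi => absurd hi (by omega))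
    (fun i _ => hsle i)).1
  have hnear := hfac.near (Ph d (fun _ => 1) s) (ph_norm d _ (fun _ => by simp) s (fun i => (hsle i).trans (by norm_num)))
  have haa : ‖ap aa (Ph d (fun _ => (1 : ℂ)) s) - cis θ / 2‖ ≤ 4 * tau p 0 := by
    rw [a1]
    have e1 : (cis θ / 2 : ℂ) = ∑ i : Fin (l + 2), (w p i : ℂ) * s i := by
      rw [Finset.sum_eq_single (0 : Fin (l + 2))]
      · rw [hs0]
        simp [w]
      · intro i _ hi
        rw [hs0, if_neg, mul_zero]
        intro h
        exact hi (Fin.ext h)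
      · intro h
        exact absurd (Finset.mem_univ _) h
    rw [e1, ← Finset.sum_sub_distrib]
    refine (norm_sum_le _ _).trans ?_
    have e2 : ∀ i : Fin (l + 2), ‖(w p i : ℂ) * Ex i (Ph d (fun _ => (1 : ℂ)) s) - (w p i : ℂ) * s i‖ ≤ 2 * tau p i := by
      intro i
      rw [← mul_sub, norm_mul, Complex.norm_real, Real.norm_of_nonneg (n1 i).1.le]
      have e3 := hv i (Nat.zero_le _)
      have e4 := (n1 i).2.1
      have e5 := (n1 i).1
      calc w p i * ‖Ex i (Ph d (fun _ => (1 : ℂ)) s) - s i‖ ≤ 1 * (2 * tau p i) :=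
            mul_le_mul e4 e3 (norm_nonneg _) zero_le_one
        _ = 2 * tau p i := one_mul _
    refine (Finset.sum_le_sum fun i _ => e2 i).trans ?_
    rw [← Finset.mul_sum]
    have e6 := n3 0 (l + 2)
    have e7 : (univ.filter (fun i : Fin (l + 2) => 0 ≤ (i : ℕ))) = univ := by
      ext i
      simp
    rw [e7] at e6
    linarith
  have htau : tau p 0 ≤ 1 / 1000 := by
    unfold tau
    have e1 := n1 1
    have e2 : w p (0 + 1) ^ 4 ≤ 1 := pow_le_one₀ e1.1.le e1.2.1
    rw [div_le_iff₀ (by positivity)]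
    norm_num
    linarith
  have e8 : ap x (Ph d (fun _ => (1 : ℂ)) s) - cis θ / 2 =
      (ap x (Ph d (fun _ => (1 : ℂ)) s) - ap aa (Ph d (fun _ => (1 : ℂ)) s)) +
      (ap aa (Ph d (fun _ => (1 : ℂ)) s) - cis θ / 2) := by ring
  rw [← hs, e8]
  refine lt_of_le_of_lt (norm_add_le _ _) ?_
  linarith

end Pool.Agent.D0H19.OP
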