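import Pool.Agent.D0H19.OP.Base

/-! Project OP (helper73), module LOW: the product formula at stage `k`. -/

set_option autoImplicit false

open Finset
open scoped BigOperators

namespace Pool.Agent.D0H19.OP

open Pool.Agent.V1192 Pool.Agent.V1192.GA
open Pool.Agent.V1192.UOD (V)
open Pool.Agent.D0H73.OP

variable {p : ℕ} [Fact p.Prime] {N : ℕ → ℕ} {n : ℕ}

theorem sv_lt (k : ℕ) (z ζ : ℂ) (i : Fin n) (hi : (i : ℕ) < k) : sv k z ζ i = 1 := by
  unfold sv
  rw [if_pos hi]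

theorem sv_norm (k : ℕ) (z ζ : ℂ) (hz : ‖z‖ ≤ 1 / 2) (hζ : ‖ζ‖ ≤ 1 / 2) (i : Fin n) (hi : k ≤ (i : ℕ)) :
    ‖sv k z ζ i‖ ≤ 1 / 2 := by
  unfold sv
  rw [if_neg (by omega)]
  split_ifs
  · exact hz
  · exact hζ
  · simp

theorem sv_norm1 (k : ℕ) (z ζ : ℂ) (hz : ‖z‖ ≤ 1 / 2) (hζ : ‖ζ‖ ≤ 1 / 2) (i : Fin n) : ‖sv k z ζ i‖ ≤ 1 := by
  rcases lt_or_ge (i : ℕ) k with hi | hi
  · rw [sv_lt k z ζ i hi, norm_one]
  · exact (sv_norm k z ζ hz hζ i hi).trans (by norm_num)

theorem ap_norm (a F : H p N n → ℂ) (hF : ∀ g, ‖F g‖ ≤ 1) : ‖ap a F‖ ≤ ∑ g, ‖a g‖ := by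
  unfold ap
  refine (norm_sum_le _ _).trans (Finset.sum_le_sum fun g _ => ?_)
  rw [norm_mul]
  exact mul_le_of_le_one_right (norm_nonneg _) (hF g)

theorem w_mono (hw : ∀ k, 0 < w p k ∧ w p k ≤ 1 ∧ w p (k + 1) ≤ w p k / 2000) {a b : ℕ} (h : a ≤ b) :
    w p b ≤ w p a := by
  induction b, h using Nat.le_induction with
  | base => exact le_rfl
  | succ b _ ih =>
    have h1 := hw b
    have h2 := h1.2.2
    have h3 := h1.1
    linarith

theorem t_LOW : S_NUM → S_AAF → S_NM → S_VAL → S_LOW := by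
  intro hnum haaf hnm hval p _ N l x y d m hN hdat hfac k χ hkl hchr z ζ hz hζ
  obtain ⟨n1, n2, n3, n4, n5, n6⟩ := hnum p
  obtain ⟨a1, a2, a3, a4⟩ := haaf p N (l + 2) hN
  obtain ⟨s, hs⟩ : ∃ s : Fin (l + 2) → ℂ, s = sv k z ζ := ⟨_, rfl⟩
  rw [← hs]
  have s1 : ∀ i : Fin (l + 2), (i : ℕ) < k → s i = 1 := fun i hi => by rw [hs]; exact sv_lt k z ζ i hi
  have s2 : ∀ i : Fin (l + 2), k ≤ (i : ℕ) → ‖s i‖ ≤ 1 / 2 := fun i hi => by rw [hs]; exact sv_norm k z ζ hz hζ i hi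
  have s3 : ∀ i : Fin (l + 2), ‖s i‖ ≤ 1 := fun i => by rw [hs]; exact sv_norm1 k z ζ hz hζ i
  obtain ⟨F, hF⟩ : ∃ F : H p N (l + 2) → ℂ, F = Ph d χ s := ⟨_, rfl⟩
  have hF1 : ∀ g, ‖F g‖ ≤ 1 := fun g => by rw [hF]; exact ph_norm d χ hchr.norm s s3 g
  have m1 := hnm p N (l + 2) d m (fun i => tau p i) x y k χ s hdat.pkg hdat.mx hdat.my hchr s1 s2
  have m2 := hnm p N (l + 2) d m (fun i => tau p i) aa aa k χ s hdat.pkg hdat.ma hdat.ma hchr s1 s2
  have m3 := hfac.prod F hF1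
  obtain ⟨v1, v2⟩ := hval p N (l + 2) d m (fun i => tau p i) k χ s hN hdat.pkg hchr s1 s2
  rw [← hF] at m1 m2 v1 v2 ⊢
  have hsum := n3 k (l + 2)
  have htk := n2 k
  -- the tolerances
  have hw1 := n1 (k + 1)
  have htau : tau p k ≤ w p (k + 1) ^ 2 / 10 ^ 10 := by
    unfold tau
    have e2 : w p (k + 1) ^ 4 ≤ w p (k + 1) ^ 2 := pow_le_pow_of_le_one hw1.1.le hw1.2.1 (by norm_num)
    gcongr
  have hww : w p (l + 1) ≤ w p (k + 1) := w_mono n1 (by omega)
  have hww2 : w p (l + 1) ^ 2 ≤ w p (k + 1) ^ 2 := pow_le_pow_left₀ (n1 (l + 1)).1.le hww 2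
  have hwk1 : w p (k + 1) ^ 2 ≤ 1 := pow_le_one₀ hw1.1.le hw1.2.1
  -- the value of `a`
  obtain ⟨T, hT⟩ : ∃ T : ℂ, T = tt k χ + w p k * z + w p (k + 1) * ζ := ⟨_, rfl⟩
  rw [← hT]
  have hTsum : T = ∑ i : Fin (l + 2), (w p i : ℂ) * (if (i : ℕ) < k then Ex i χ else s i) := by
    rw [hT]
    unfold tt
    rw [← Finset.sum_filter_add_sum_filter_not univ (fun i : Fin (l + 2) => (i : ℕ) < k), add_assoc]
    congr 1
    · refine Finset.sum_congr rfl fun i hi => ?_
      rw [if_pos (Finset.mem_filter.1 hi).2]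
    · have hk0 : k < l + 2 := by omega
      have hk1 : k + 1 < l + 2 := by omega
      have hne : (⟨k, hk0⟩ : Fin (l + 2)) ≠ ⟨k + 1, hk1⟩ := by
        intro h
        have := congrArg Fin.val h
        simp at this
      symm
      have h1 : ∑ i ∈ univ.filter (fun i : Fin (l + 2) => ¬ (i : ℕ) < k),
          (w p i : ℂ) * (if (i : ℕ) < k then Ex i χ else s i) =
          ∑ i ∈ ({⟨k, hk0⟩, ⟨k + 1, hk1⟩} : Finset (Fin (l + 2))),
          (w p i : ℂ) * (if (i : ℕ) < k then Ex i χ else s i) := by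
        symm
        apply Finset.sum_subset
        · intro i hi
          rw [Finset.mem_insert, Finset.mem_singleton] at hi
          rw [Finset.mem_filter]
          refine ⟨Finset.mem_univ _, ?_⟩
          rcases hi with rfl | rfl
          · simp
          · simp
        · intro i hi hi2
          have h2 := (Finset.mem_filter.1 hi).2
          rw [Finset.mem_insert, Finset.mem_singleton] at hi2
          push Not at hi2
          have h3 : (i : ℕ) ≠ k := fun h => hi2.1 (Fin.ext h)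
          have h4 : (i : ℕ) ≠ k + 1 := fun h => hi2.2 (Fin.ext h)
          rw [if_neg h2, hs]
          unfold sv
          rw [if_neg h2, if_neg h3, if_neg h4, mul_zero]
      rw [h1, Finset.sum_pair hne]
      simp only [hs, sv]
      simp
  have haT : ‖ap aa F - T‖ ≤ 4 * tau p k := by
    rw [a1, hTsum, ← Finset.sum_sub_distrib]
    refine (norm_sum_le _ _).trans ?_
    have e2 : ∀ i : Fin (l + 2), ‖(w p i : ℂ) * Ex i F - (w p i : ℂ) * (if (i : ℕ) < k then Ex i χ else s i)‖ ≤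
        if k ≤ (i : ℕ) then 2 * tau p i else 0 := by
      intro i
      by_cases hi : (i : ℕ) < k
      · rw [if_pos hi, if_neg (by omega), v2 i hi, sub_self, norm_zero]
      · rw [if_neg hi, if_pos (by omega), ← mul_sub, norm_mul, Complex.norm_real, Real.norm_of_nonneg (n1 i).1.le]
        have e3 := v1 i (by omega)
        calc w p i * ‖Ex i F - s i‖ ≤ 1 * (2 * tau p i) :=
              mul_le_mul (n1 i).2.1 e3 (norm_nonneg _) zero_le_one
          _ = 2 * tau p i := one_mul _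
    refine (Finset.sum_le_sum fun i _ => e2 i).trans ?_
    rw [← Finset.sum_filter, ← Finset.mul_sum]
    linarith
  have hna : ‖ap aa F‖ ≤ 2 := (ap_norm _ F hF1).trans a2
  have htk1 : tau p k ≤ 1 / 100 := by
    refine htau.trans ?_
    rw [div_le_iff₀ (by positivity)]
    norm_num
    linarith
  have hnT : ‖T‖ ≤ 3 := by
    have h1 : T = ap aa F - (ap aa F - T) := by ring
    rw [h1]
    refine (norm_sub_le _ _).trans ?_
    linarith
  have hsq : ‖ap aa F * ap aa F - T ^ 2‖ ≤ 20 * tau p k := by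
    have h1 : ap aa F * ap aa F - T ^ 2 = (ap aa F - T) * (ap aa F + T) := by ring
    rw [h1, norm_mul]
    have h2 : ‖ap aa F + T‖ ≤ 5 := (norm_add_le _ _).trans (by linarith)
    calc ‖ap aa F - T‖ * ‖ap aa F + T‖ ≤ (4 * tau p k) * 5 :=
          mul_le_mul haT h2 (norm_nonneg _) (by have := htk.1; positivity)
      _ = 20 * tau p k := by ring
  -- the last block
  have htl : tau p (l + 1) ≤ 2 * tau p k := by
    refine le_trans ?_ hsum
    have h1 := Finset.single_le_sum (f := fun i : Fin (l + 2) => tau p i) (s := univ.filter (fun i : Fin (l + 2) => k ≤ (i : ℕ)))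
      (fun i _ => (n2 i).1.le) (show Fin.last (l + 1) ∈ _ by
        rw [Finset.mem_filter]
        refine ⟨Finset.mem_univ _, ?_⟩
        simp
        omega)
    simpa using h1
  have hlast : ‖Ex (Fin.last (l + 1)) F - (if k = l then ζ else 0)‖ ≤ 4 * tau p k := by
    have h1 := v1 (Fin.last (l + 1)) (by simp; omega)
    have h2 : s (Fin.last (l + 1)) = if k = l then ζ else 0 := by
      rw [hs]
      unfold sv
      rw [if_neg (by simp; omega), if_neg (by simp; omega)]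
      by_cases h : k = l
      · rw [if_pos h, if_pos (by simp; omega)]
      · rw [if_neg h, if_neg (by simp; omega)]
    rw [h2] at h1
    refine h1.trans ?_
    have h3 : tau p ((Fin.last (l + 1) : Fin (l + 2)) : ℕ) = tau p (l + 1) := by simp
    rw [h3]
    linarith
  have hwl : w p l ^ 2 / 100 ≤ 1 := by
    have := pow_le_one₀ (n := 2) (n1 l).1.le (n1 l).2.1
    linarith
  have hlast2 : ‖((w p l ^ 2 / 100 : ℝ) : ℂ) * Ex (Fin.last (l + 1)) F -
      (if k = l then ((w p l ^ 2 / 100 : ℝ) : ℂ) * ζ else 0)‖ ≤ 4 * tau p k := by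
    have h1 : (if k = l then ((w p l ^ 2 / 100 : ℝ) : ℂ) * ζ else 0) =
        ((w p l ^ 2 / 100 : ℝ) : ℂ) * (if k = l then ζ else 0) := by
      split_ifs
      · rfl
      · rw [mul_zero]
    rw [h1, ← mul_sub, norm_mul, Complex.norm_real, Real.norm_of_nonneg (by positivity)]
    calc w p l ^ 2 / 100 * ‖Ex (Fin.last (l + 1)) F - (if k = l then ζ else 0)‖ ≤ 1 * (4 * tau p k) :=
          mul_le_mul hwl hlast (norm_nonneg _) zero_le_one
      _ = 4 * tau p k := one_mul _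
  -- everything together
  have e : ap x F * ap y F - (T ^ 2 + (if k = l then ((w p l ^ 2 / 100 : ℝ) : ℂ) * ζ else 0)) =
      -(ap2 x y F - ap x F * ap y F) +
      (ap2 x y F - (ap2 aa aa F + ((w p l ^ 2 / 100 : ℝ) : ℂ) * Ex (Fin.last (l + 1)) F)) +
      (ap2 aa aa F - ap aa F * ap aa F) + (ap aa F * ap aa F - T ^ 2) +
      (((w p l ^ 2 / 100 : ℝ) : ℂ) * Ex (Fin.last (l + 1)) F -
        (if k = l then ((w p l ^ 2 / 100 : ℝ) : ℂ) * ζ else 0)) := by ring
  rw [e]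
  have b1 := norm_add_le (-(ap2 x y F - ap x F * ap y F) +
      (ap2 x y F - (ap2 aa aa F + ((w p l ^ 2 / 100 : ℝ) : ℂ) * Ex (Fin.last (l + 1)) F)) +
      (ap2 aa aa F - ap aa F * ap aa F) + (ap aa F * ap aa F - T ^ 2))
      (((w p l ^ 2 / 100 : ℝ) : ℂ) * Ex (Fin.last (l + 1)) F -
        (if k = l then ((w p l ^ 2 / 100 : ℝ) : ℂ) * ζ else 0))
  have b2 := norm_add_le (-(ap2 x y F - ap x F * ap y F) +
      (ap2 x y F - (ap2 aa aa F + ((w p l ^ 2 / 100 : ℝ) : ℂ) * Ex (Fin.last (l + 1)) F)) +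
      (ap2 aa aa F - ap aa F * ap aa F)) (ap aa F * ap aa F - T ^ 2)
  have b3 := norm_add_le (-(ap2 x y F - ap x F * ap y F) +
      (ap2 x y F - (ap2 aa aa F + ((w p l ^ 2 / 100 : ℝ) : ℂ) * Ex (Fin.last (l + 1)) F)))
      (ap2 aa aa F - ap aa F * ap aa F)
  have b4 := norm_add_le (-(ap2 x y F - ap x F * ap y F))
      (ap2 x y F - (ap2 aa aa F + ((w p l ^ 2 / 100 : ℝ) : ℂ) * Ex (Fin.last (l + 1)) F))
  rw [norm_neg] at b4
  have hfin : 4 * tau p k + 4 * tau p k + 20 * tau p k + 4 * tau p k + w p (l + 1) ^ 2 / 100 ≤ w p (k + 1) ^ 2 / 50 := by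
    have h0 : 0 ≤ w p (k + 1) ^ 2 := sq_nonneg _
    linarith
  linarith

end Pool.Agent.D0H19.OP
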